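import Mathlib
import Pool.Agent.H16.HankelDS

set_option autoImplicit false

namespace Pool.Agent.Results.MP_adc81a_nt.DoubleRoot

open Polynomial

theorem result :
    ∃ n : ℕ, 2 ≤ n ∧ ∃ t₀ : ℂ, t₀ ≠ 0 ∧ (∀ (z : ℂ) (m : ℕ), 1 ≤ m → z ^ m = 1 → t₀ ≠ 2 * z) ∧
      ∀ H : ℤ[X], H = Matrix.det (Matrix.of fun i j : Fin n =>
          (∑ k ∈ Finset.range (i.val + j.val),
            if Nat.testBit (i.val + j.val) k then (X : ℤ[X]) ^ k else 0)) →
        H ≠ 0 ∧ (X - C t₀) ^ 2 ∣ H.map (Int.castRingHom ℂ) := by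
  refine ⟨55, by norm_num, -1, by norm_num, ?_, ?_⟩
  · intro z m hm hz h
    have h1 : ‖z‖ = 1 := by
      have : ‖z‖ ^ m = 1 := by rw [← norm_pow, hz, norm_one]
      exact (pow_eq_one_iff_of_nonneg (norm_nonneg z) (by omega)).mp this
    have h2 := congrArg norm h
    rw [norm_mul, h1] at h2
    norm_num at h2
  · intro H hH
    have hM : H = Pool.Agent.H16.HankelDS.M.det := hH
    rw [hM]
    refine ⟨Pool.Agent.H16.HankelDS.det_ne, ?_⟩
    have := Polynomial.map_dvd (Int.castRingHom ℂ) Pool.Agent.H16.HankelDS.dvd_det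
    simpa using this

end Pool.Agent.Results.MP_adc81a_nt.DoubleRoot
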